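import Mathlib

namespace Pool.Agent.H.MP_35a6f4_lc

open Finset

variable {X : Type} (c : ℕ → X → Bool)

def Sep (t : List X) (a b : ℕ) : Prop := ∃ x ∈ t, c a x ≠ c b x

variable {c}

theorem Sep.symm {t a b} : Sep c t a b → Sep c t b a := fun ⟨x, h, e⟩ => ⟨x, h, e.symm⟩
theorem Sep.mono {t u : List X} {a b} (h : t ⊆ u) : Sep c t a b → Sep c u a b := fun ⟨x, k, e⟩ => ⟨x, h k, e⟩

theorem one (m : ℕ) : ∀ F : Finset ℕ, F.Nonempty → #F ≤ 2 ^ m →
    ∃ h ∈ F, ∃ t : List X, t.length ≤ m ∧ ∀ b ∈ F, c h ≠ c b → Sep c t h b := by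
  induction m with
  | zero =>
    rintro F ⟨h, k⟩ l
    exact ⟨h, k, [], le_rfl, fun b hb e => (e (congrArg c (card_le_one.1 l _ k _ hb))).elim⟩
  | succ m ih =>
    rintro F ⟨h, k⟩ l
    by_cases q : ∀ b ∈ F, c h = c b
    · exact ⟨h, k, [], by simp, fun b hb e => (e (q b hb)).elim⟩
    push Not at q
    obtain ⟨b, hb, e⟩ := q
    obtain ⟨x, e⟩ := Function.ne_iff.1 e
    obtain ⟨v, ⟨a, ha, e⟩, l'⟩ : ∃ v, (∃ a ∈ F, c a x = v) ∧ #{a ∈ F | c a x = v} ≤ 2 ^ m := by
      have := card_filter_add_card_filter_not (s := F) fun a => c a x = c h x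
      by_cases q : #{a ∈ F | c a x = c h x} ≤ 2 ^ m
      · exact ⟨_, ⟨h, k, rfl⟩, q⟩
      · refine ⟨_, ⟨b, hb, rfl⟩, .trans (card_le_card (t := {a ∈ F | ¬ c a x = c h x}) fun a => ?_) (by omega)⟩
        simp +contextual [e.symm]
    obtain ⟨h, k, t, l, s⟩ := ih {a ∈ F | c a x = v} ⟨a, mem_filter.2 ⟨ha, e⟩⟩ l'
    refine ⟨h, (mem_filter.1 k).1, x :: t, by simpa, fun b hb e => ?_⟩
    by_cases q : c b x = v
    · exact (s b (mem_filter.2 ⟨hb, q⟩) e).mono (by simp)
    · exact ⟨x, by simp, by rw [(mem_filter.1 k).2]; exact Ne.symm q⟩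

theorem many (m : ℕ) (F : Finset ℕ) : #F ≤ 2 ^ m → ∃ t : ℕ → List X, (∀ h, (t h).length ≤ m) ∧
    ∀ a ∈ F, ∀ b ∈ F, c a ≠ c b → Sep c (t a) a b ∨ Sep c (t b) a b := by
  induction F using Finset.strongInduction with
  | H F ih =>
    intro l
    rcases F.eq_empty_or_nonempty with rfl | n
    · exact ⟨fun _ => [], by simp, by simp⟩
    obtain ⟨h, k, u, l', s⟩ := one (c := c) m F n l
    obtain ⟨t, t1, t2⟩ := ih _ (erase_ssubset k) (card_erase_le.trans l)
    refine ⟨Function.update t h u, fun a => ?_, fun a ha b hb e => ?_⟩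
    · by_cases q : a = h <;> simp [q, l', t1]
    by_cases p : a = h
    · subst p; exact .inl (by simpa using s b hb e)
    by_cases q : b = h
    · subst q; exact .inr (by simpa using (s a ha e.symm).symm)
    simpa [p, q] using t2 a (by simp [*]) b (by simp [*]) e

theorem dom (R : ℕ → ℕ → Prop) (m : ℕ) : ∀ F : Finset ℕ, #F < 2 ^ m → (∀ a ∈ F, ∀ b ∈ F, R a b ∨ R b a) →
    ∃ D : List ℕ, D.length ≤ m ∧ (∀ a ∈ D, a ∈ F) ∧ ∀ b ∈ F, ∃ a ∈ D, R a b := by
  classical
  induction m with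
  | zero =>
    intro F l _
    obtain rfl : F = ∅ := by simpa using l
    exact ⟨[], by simp⟩
  | succ m ih =>
    intro F l t
    rcases F.eq_empty_or_nonempty with rfl | n
    · exact ⟨[], by simp⟩
    obtain ⟨a, ha, e⟩ : ∃ a ∈ F, #{b ∈ F | ¬ R a b} ≤ #{b ∈ F | R a b} := exists_le_of_sum_le n (by
      simp only [card_filter]
      rw [sum_comm]
      refine sum_le_sum fun a ha => sum_le_sum fun b hb => ?_
      have := t a ha b hb
      split_ifs <;> simp_all)
    have : #{b ∈ F | R a b} + #{b ∈ F | ¬ R a b} = #F := card_filter_add_card_filter_not _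
    obtain ⟨D, d1, d2, d3⟩ := ih {b ∈ F | ¬ R a b} (by omega) fun x hx y hy =>
      t x (mem_filter.1 hx).1 y (mem_filter.1 hy).1
    refine ⟨a :: D, by simpa, List.forall_mem_cons.2 ⟨ha, fun x hx => (mem_filter.1 (d2 x hx)).1⟩, fun b hb => ?_⟩
    by_cases q : R a b
    · exact ⟨a, by simp, q⟩
    · exact (d3 b (mem_filter.2 ⟨hb, q⟩)).imp fun x h => ⟨by simp [h.1], h.2⟩

variable (c)

def Valid (ne : ℕ → ℕ → Prop) (T : List (List X)) : Prop := (∀ l ∈ T, l.length ≤ T.length.size ^ 2) ∧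
  ∀ a < T.length, ∀ b < T.length, ne a b → Sep c (T.getD a []) a b ∨ Sep c (T.getD b []) a b

def Ext (ne : ℕ → ℕ → Prop) (T E : List (List X)) : Prop :=
  (T ++ E).length = 2 ^ (T.length.size + 1) ^ 2 ∧ Valid c ne (T ++ E)

variable {c}

theorem lt_next (n : ℕ) : n < 2 ^ (n.size + 1) ^ 2 :=
  (Nat.lt_size_self n).trans_le (Nat.pow_le_pow_right two_pos (by nlinarith))

theorem ext {T : List (List X)} (v : Valid c (fun a b => c a ≠ c b) T) : ∃ E, Ext c (fun a b => c a ≠ c b) T E := by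
  classical
  have g : ∀ a, (T.getD a []).length ≤ T.length.size ^ 2 := fun a => by
    rw [List.getD_eq_getElem?_getD]
    cases e : T[a]? with
    | none => simp
    | some l => exact v.1 l (List.mem_of_getElem? e)
  have : ∀ h, ∃ u : List X, u.length ≤ T.length.size * (T.length.size ^ 2 + 1) ∧
      ∀ b < T.length, c b ≠ c h → Sep c (T.getD b []) b h ∨ Sep c u b h := fun h => by
    obtain ⟨D, d1, d2, d3⟩ := dom (fun a b => c a = c b ∨ Sep c (T.getD a []) a b) T.length.size
      {b ∈ range T.length | c b ≠ c h ∧ ¬ Sep c (T.getD b []) b h}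
      ((card_filter_le _ _).trans_lt (by simpa using Nat.lt_size_self _)) fun a ha b hb => by
        by_cases q : c a = c b
        · exact .inl (.inl q)
        · exact (v.2 a (mem_range.1 (mem_filter.1 ha).1) b (mem_range.1 (mem_filter.1 hb).1) q).imp .inr
            fun h => .inr h.symm
    have : ∀ a, ∃ w : List X, w.length ≤ 1 ∧ (c a ≠ c h → Sep c w a h) := fun a => by
      by_cases q : c a = c h
      · exact ⟨[], by simp [q]⟩
      · obtain ⟨x, e⟩ := Function.ne_iff.1 q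
        exact ⟨[x], le_rfl, fun _ => ⟨x, by simp, e⟩⟩
    choose w w1 w2 using this
    refine ⟨D.flatMap fun a => w a ++ T.getD a [], ?_, fun b hb e => or_iff_not_imp_left.2 fun q => ?_⟩
    · rw [List.length_flatMap]
      refine (List.sum_le_card_nsmul _ (T.length.size ^ 2 + 1) ?_).trans (by simpa using d1)
      simp only [List.forall_mem_map, List.length_append]
      exact fun a _ => by have := g a; have := w1 a; omega
    obtain ⟨a, ha, r⟩ := d3 b (mem_filter.2 ⟨mem_range.2 hb, e, q⟩)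
    have k := (mem_filter.1 (d2 a ha)).2
    obtain r | ⟨x, r, r'⟩ := r
    · obtain ⟨x, s, s'⟩ := w2 a k.1
      exact ⟨x, List.mem_flatMap.2 ⟨a, ha, by simp [s]⟩, r ▸ s'⟩
    · exact ⟨x, List.mem_flatMap.2 ⟨a, ha, List.mem_append_right _ r⟩, fun z => k.2 ⟨x, r, z ▸ r'⟩⟩
  choose u u1 u2 using this
  obtain ⟨t, t1, t2⟩ := many (c := c) ((T.length.size + 1) ^ 2) (range (2 ^ (T.length.size + 1) ^ 2)) (by simp)
  have l := lt_next T.length
  generalize hM : 2 ^ (T.length.size + 1) ^ 2 = M at *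
  let E := (List.range' T.length (M - T.length)).map fun h => t h ++ u h
  have e : (T ++ E).length = M := by simp [E]; omega
  have e1 : ∀ a < T.length, (T ++ E).getD a [] = T.getD a [] := fun a h => List.getD_append _ _ _ _ h
  have e2 : ∀ a < M, ¬ a < T.length → (T ++ E).getD a [] = t a ++ u a := fun a h h' => by
    rw [List.getD_append_right _ _ _ _ (by omega), List.getD_eq_getElem _ _ (by simp [E]; omega)]
    simp [E, show T.length + (a - T.length) = a by omega]
  refine ⟨E, e.trans hM.symm, fun x hx => ?_, fun a ha b hb q => ?_⟩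
  · rw [e, ← hM, Nat.size_pow]
    obtain hx | hx := List.mem_append.1 hx
    · exact (v.1 x hx).trans (Nat.pow_le_pow_left (by nlinarith) 2)
    · obtain ⟨h, -, rfl⟩ := List.mem_map.1 hx
      rw [List.length_append]
      refine (Nat.add_le_add (t1 h) (u1 h)).trans ?_
      generalize T.length.size = s
      ring_nf
      omega
  rw [e] at ha hb
  by_cases p : a < T.length <;> by_cases p' : b < T.length
  · rw [e1 a p, e1 b p']; exact v.2 a p b p' q
  · rw [e1 a p, e2 b hb p']; exact (u2 b a p q).imp_right (.mono (by simp))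
  · rw [e2 a ha p, e1 b p']; exact (u2 a b p' q.symm).symm.imp (fun h => h.symm.mono (by simp)) .symm
  · rw [e2 a ha p, e2 b hb p']
    exact (t2 a (mem_range.2 ha) b (mem_range.2 hb) q).imp (.mono (by simp)) (.mono (by simp))

end Pool.Agent.H.MP_35a6f4_lc
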