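import Pool.Agent.H.MP_35a6f4_lc.A
import Pool.Agent.Lib.lead.CXBase

namespace Pool.Agent.H.MP_35a6f4_lc

open Pool.Agent.Lib.CX Filter

variable {α γ X : Type}

def dc (γ : Type) [Enc γ] [Dec γ] (n : ℕ) : γ := Dec.dec (parse n.bits.dropLast)

@[fun_prop] theorem pt_dc [Enc α] [Enc γ] [Dec γ] {n : α → ℕ} (h : PT n) : PT fun a => dc γ (n a) :=
  Dec.pt.comp (PT.parse.comp h.bits.dropLast)

theorem dc_surj [Enc γ] [Dec γ] (x : γ) : ∃ n, dc γ n = x ∧ n.size ≤ 2 * size x + 1 := by
  refine ⟨ofBits ((Enc.tr x).post ++ [true]), ?_, ?_⟩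
  · simp [dc, bits_ofBits, parse, parse_post, Dec.dec_tr]
  · have : _ ≤ 2 * size x := post_length (Enc.tr x)
    rw [← Nat.size_eq_bits_len, bits_ofBits]
    simpa using this

variable [Enc X] [Dec X] [DecidableEq X] (c : ℕ → X → Bool)

def neN (N a b : ℕ) : Prop := ∃ x < N, c a (dc X x) ≠ c b (dc X x)
instance (N a b) : Decidable (neN c N a b) := by unfold neN; infer_instance
instance (t a b) : Decidable (Sep c t a b) := by unfold Sep; infer_instance
instance (ne T E) [∀ a b, Decidable (ne a b)] : Decidable (Ext c ne T E) := by unfold Ext Valid; infer_instance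

def nxt (N : ℕ) (T : List (List X)) : List (List X) :=
  T ++ (((List.range N).map (dc _)).find? fun E => Ext c (neN c N) T E).getD []

def Fit (h : ℕ) (S : List X × List X) : Prop := (∀ x ∈ S.1, c h x = true) ∧ ∀ x ∈ S.2, c h x = false
instance (h S) : Decidable (Fit c h S) := by unfold Fit; infer_instance

def tab (N : ℕ) : List (List X) := (nxt c N)^[N] []

def sel (S : List X × List X) : Option ℕ := (List.range (tab c (size S)).length).find? fun h =>
  Fit c h S ∧ ∀ x ∈ (tab c (size S)).getD h [], x ∈ S.1 ∨ x ∈ S.2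

variable {c}

theorem step {T : List (List X)} (v : Valid c (fun a b => c a ≠ c b) T) :
    ∃ E, Ext c (fun a b => c a ≠ c b) T E ∧ ∀ᶠ N in atTop, nxt c N T = T ++ E := by
  classical
  have ex : ∃ n, Ext c (fun a b => c a ≠ c b) T (dc _ n) := by
    obtain ⟨E, h⟩ := ext v
    obtain ⟨n, rfl, -⟩ := dc_surj E
    exact ⟨n, h⟩
  refine ⟨_, Nat.find_spec ex, ?_⟩
  have : ∀ a b, ∀ᶠ N in atTop, neN c N a b ↔ c a ≠ c b := fun a b => by
    by_cases q : c a = c b
    · simp [neN, q]
    · obtain ⟨x, e⟩ := Function.ne_iff.1 q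
      obtain ⟨n, rfl, -⟩ := dc_surj x
      exact (eventually_gt_atTop n).mono fun N h => iff_of_true ⟨n, h, e⟩ q
  have := (eventually_all_finset (Finset.range (2 ^ (T.length.size + 1) ^ 2))).2 fun a _ =>
    (eventually_all_finset (Finset.range (2 ^ (T.length.size + 1) ^ 2))).2 fun b _ => this a b
  filter_upwards [this, eventually_gt_atTop (Nat.find ex)] with N h h'
  have e : ∀ E, Ext c (neN c N) T E ↔ Ext c (fun a b => c a ≠ c b) T E := fun E =>
    and_congr_right fun l => and_congr_right fun _ => forall₂_congr fun a ha => forall₂_congr fun b hb =>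
      imp_congr_left (h a (by simpa [← l] using ha) b (by simpa [← l] using hb))
  rw [nxt, List.find?_map, List.find?_range_eq_some.2 ⟨by simpa [e] using Nat.find_spec ex, by simpa using h',
    fun j hj => by simpa [e] using Nat.find_min ex hj⟩]
  rfl

theorem reach (h : ℕ) : ∃ i T, Valid c (fun a b => c a ≠ c b) T ∧ (∀ᶠ N in atTop, (nxt c N)^[i] [] = T) ∧
    h ≤ T.length ∧ T.length.size ≤ (h.size + 1) ^ 2 + 1 := by
  induction h with
  | zero => exact ⟨0, [], by simp [Valid], by simp⟩
  | succ h ih =>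
    obtain ⟨i, T, a, b, d, e⟩ := ih
    have m := Nat.pow_le_pow_left (Nat.succ_le_succ (Nat.size_le_size h.le_succ)) 2
    rcases d.lt_or_eq with d | rfl
    · exact ⟨i, T, a, b, d, e.trans (Nat.succ_le_succ m)⟩
    obtain ⟨E, f, g⟩ := step a
    refine ⟨i + 1, T ++ E, f.2, ?_, f.1 ▸ lt_next _, by rw [f.1, Nat.size_pow]; exact Nat.succ_le_succ m⟩
    filter_upwards [b, g] with N p q
    rw [Function.iterate_succ_apply', p, q]

theorem sel_fit {S h} (e : sel c S = some h) : Fit c h S := by
  have := List.find?_some e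
  simp only [decide_eq_true_eq] at this
  exact this.1

theorem sel_spec (h : ℕ) : ∃ (t : List X) (N : ℕ), t.length ≤ ((h.size + 2) ^ 2 + 1) ^ 2 ∧
    ∀ S, N ≤ size S → Fit c h S → (∀ x ∈ t, x ∈ S.1 ∨ x ∈ S.2) → ∃ k, sel c S = some k ∧ c k = c h := by
  obtain ⟨i, T, a, b, d, e⟩ := reach (c := c) (h + 1)
  obtain ⟨N, b⟩ := eventually_atTop.1 (b.and (eventually_ge_atTop i))
  have s : (h + 1).size ≤ h.size + 1 := Nat.size_le.2 (by have := Nat.lt_size_self h; rw [pow_succ]; omega)
  refine ⟨T.getD h [], N, ?_, fun S hS f g => ?_⟩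
  · rw [List.getD_eq_getElem _ _ d]
    exact (a.1 _ (List.getElem_mem _)).trans (Nat.pow_le_pow_left (e.trans (Nat.succ_le_succ
      (Nat.pow_le_pow_left (Nat.succ_le_succ s) 2))) 2)
  obtain ⟨b1, b2⟩ := b _ hS
  obtain ⟨E, p⟩ : T <+: tab c (size S) := by
    obtain ⟨j, hj⟩ := Nat.exists_eq_add_of_le' b2
    rw [tab, congrArg ((nxt c (size S))^[·]) hj, Function.iterate_add_apply, b1]
    clear hj
    induction j with
    | zero => rfl
    | succ j ih => rw [Function.iterate_succ_apply']; exact ih.trans (List.prefix_append _ _)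
  have q : ∀ k ≤ h, (tab c (size S)).getD k [] = T.getD k [] := fun k _ => p ▸ List.getD_append _ _ _ _ (by omega)
  have r : Fit c h S ∧ ∀ x ∈ (tab c (size S)).getD h [], x ∈ S.1 ∨ x ∈ S.2 := ⟨f, q h le_rfl ▸ g⟩
  cases z : sel c S with
  | none => exact (List.find?_eq_none.1 z h (by simp [← p]; omega) (decide_eq_true r)).elim
  | some k =>
    obtain ⟨z1, -, z2⟩ := List.find?_range_eq_some.1 z
    have l : k ≤ h := not_lt.1 fun l => by have := z2 h l; rw [decide_eq_true r] at this; cases this
    rw [decide_eq_true_eq, q k l] at z1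
    have w : ∀ x, x ∈ S.1 ∨ x ∈ S.2 → c k x = c h x := fun x hx =>
      hx.elim (fun hx => (z1.1.1 x hx).trans (f.1 x hx).symm) fun hx => (z1.1.2 x hx).trans (f.2 x hx).symm
    exact ⟨k, rfl, by_contra fun n => (a.2 k (by omega) h d n).elim (fun ⟨x, y, y'⟩ => y' (w x (z1.2 x y)))
      fun ⟨x, y, y'⟩ => y' (w x (g x y))⟩

variable [Enc α] (hc : PT fun p : ℕ × X => c p.1 p.2)
include hc

omit [Dec X] [DecidableEq X] in
theorem pt_c {a : α → ℕ} {x : α → X} (h1 : PT a) (h2 : PT x) : PT fun p => c (a p) (x p) := hc.comp (h1.pair h2)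

omit [Dec X] [DecidableEq X] in
theorem pt_sep {t : α → List X} {a b : α → ℕ} (h0 : PT t) (h1 : PT a) (h2 : PT b) :
    PT fun p => decide (Sep c (t p) (a p) (b p)) :=
  .decide_exists (i := fun _ _ => inferInstance) (.decide_ne (pt_c hc (h1.comp PT.fst') PT.snd')
    (pt_c hc (h2.comp PT.fst') PT.snd')) h0

omit [DecidableEq X] in
theorem pt_ext {N : α → ℕ} {T E : α → List (List X)} (h0 : PT N) (h1 : PB N) (h2 : PT T) (h3 : PT E) :
    PT fun p => decide (Ext c (neN c (N p)) (T p) (E p)) := by
  have a : PT fun p => T p ++ E p := h2.append h3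
  have b : PT fun p : (α × ℕ) × ℕ => decide (neN c (N p.1.1) p.1.2 p.2) :=
    .decide_exists_lt (i := fun _ _ => inferInstance) (.decide_ne (pt_c hc (by fun_prop) (by fun_prop))
      (pt_c hc (by fun_prop) (by fun_prop))) (by fun_prop) (h1.comp (by fun_prop))
  unfold Ext Valid
  refine .decide_and (.decide_eq a.length (.pow (by fun_prop) (by fun_prop) (by fun_prop))) (.decide_and
    (i := fun _ => inferInstance) (j := fun _ => inferInstance) (by fun_prop) (.decide_forall_lt
      (i := fun _ _ => inferInstance) (.decide_forall_lt (i := fun _ _ => inferInstance) (.decide_imp b (.decide_or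
        (pt_sep hc ?_ ?_ ?_) (pt_sep hc ?_ ?_ ?_))) ?_ ?_) ?_ ?_)) <;> fun_prop

omit [DecidableEq X] in
theorem pt_tab {N : α → ℕ} (h0 : PT N) (h1 : PB N) : PT fun a => tab c (N a) := by
  have a : PT fun a => (List.range (N a)).map (dc (List (List X))) := by fun_prop
  refine PT.iterate (F := fun a => nxt c (N a))
    (B := fun a => 2 + N a * (size ((List.range (N a)).map (dc (List (List X)))) + 2))
    (PT.snd'.append (.ogetD (.find? (pt_ext hc (by fun_prop) (h1.comp (by fun_prop)) (by fun_prop) PT.snd')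
      (a.comp PT.fst')) (by fun_prop))) (by fun_prop) h0 h1 (by fun_prop) fun a k h => .trans ?_
        (Nat.add_le_add_left (Nat.mul_le_mul_right _ h) 2)
  clear h
  induction k with
  | zero => simp
  | succ k ih =>
    rw [Function.iterate_succ_apply', nxt, Nat.succ_mul, ← add_assoc]
    refine (size_append_le _ _).trans (Nat.add_le_add ih ?_)
    cases e : List.find? _ _ with
    | none => simp
    | some E => exact (size_mem (List.mem_of_find?_eq_some e)).trans (by omega)

theorem pt_sel : PT (sel c) := by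
  have a : PT fun S : List X × List X => tab c (size S) := pt_tab hc (by fun_prop) PB.size'
  refine .find? (.decide_and (i := fun _ => inferInstance) (j := fun _ => inferInstance) (.decide_and
    (.decide_forall (i := fun _ _ => inferInstance) (.decide_eq (pt_c hc ?_ ?_) ?_) ?_)
    (.decide_forall (i := fun _ _ => inferInstance) (.decide_eq (pt_c hc ?_ ?_) ?_) ?_))
    (.decide_forall (i := fun _ _ => inferInstance) ?_ (.getD (a.comp PT.fst') ?_ ?_))) (a.length.range (.length a)) <;>
    fun_prop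

end Pool.Agent.H.MP_35a6f4_lc
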