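import Pool.Agent.Lib.helper25.Cfg

namespace Pool.Agent.H.MP_35a6f4_lc

variable {T : Type}

/-- a sample: the positive strings and the negative strings -/
abbrev Sample (T : Type) := List (List T) × List (List T)

def Consistent (S : Sample T) (L : Language T) : Prop := (∀ w ∈ S.1, w ∈ L) ∧ ∀ w ∈ S.2, w ∉ L

/-- total length of the productions, each counted with its left side -/
def gsize (G : ContextFreeGrammar T) : ℕ := ∑ r ∈ G.rules, (r.output.length + 1)

end Pool.Agent.H.MP_35a6f4_lc
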