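import Pool.Agent.H.MP_35a6f4_lc.B
import Pool.Agent.H.MP_35a6f4_lc.Defs
import Pool.Agent.Lib.helper25.Cyk

namespace Pool.Agent.H.MP_35a6f4_lc

open Pool.Agent.Lib.CX Pool.Agent.Lib.helper21.CFG Polynomial

variable {T N M : Type}

def ms (f : N → M) : Symbol T N → Symbol T M
  | .terminal a => .terminal a
  | .nonterminal x => .nonterminal (f x)

theorem hom (f : N → M) {R : Set (ContextFreeRule T N)} {R' : Set (ContextFreeRule T M)}
    (h : ∀ r ∈ R, ⟨f r.input, r.output.map (ms f)⟩ ∈ R') {l w} (g : Gen R l w) : Gen R' (l.map (ms f)) w := by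
  induction g with
  | nil => exact .nil
  | ter t _ ih => exact .ter t ih
  | nt hr _ _ a b => exact .nt (h _ hr) a b

def nts : Symbol T N → List N
  | .terminal _ => []
  | .nonterminal x => [x]

def cs (f : N → ℕ) : Symbol T N → Option T × ℕ
  | .terminal a => (some a, 0)
  | .nonterminal x => (none, f x)

theorem code [Enc T] {k : ℕ} (hk : ∀ a : T, size a ≤ k) (G : ContextFreeGrammar T) : ∃ g : Cfg T,
    g.toCFG.language = G.language ∧ size g ≤ gsize G * (gsize G * (3 * gsize G + k + 12) + 3 * gsize G + 9) + 2 := by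
  classical
  let L := G.initial :: G.rules.toList.flatMap fun r => r.input :: r.output.flatMap nts
  have l : L.length ≤ gsize G + 1 := by
    simp only [L, List.length_cons, List.length_flatMap, Finset.sum_map_toList, gsize]
    gcongr with r
    refine (List.sum_le_card_nsmul _ 1 ?_).trans (by simp)
    simp only [List.forall_mem_map]
    rintro (_ | _) - <;> simp [nts]
  have u : ∀ x ∈ L, L.getD (L.idxOf x) G.initial = x := fun x h => by
    rw [List.getD_eq_getElem _ _ (List.idxOf_lt_length_of_mem h), List.getElem_idxOf]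
  have e : ∀ s : Symbol T G.NT, Cfg.sym (cs L.idxOf s) = ms L.idxOf s := by rintro (_ | _) <;> rfl
  have z : ∀ x, size (L.idxOf x) ≤ 3 * gsize G + 5 := fun x =>
    (size_nat_le _).trans (by have := @List.idxOf_le_length _ _ _ L x; omega)
  refine ⟨G.rules.toList.map fun r => (L.idxOf r.input, r.output.map (cs L.idxOf)), Set.ext fun w => ?_, ?_⟩
  · refine (Cfg.lang _ w).trans (.trans ⟨fun h => ?_, fun h => ?_⟩ (mem_language_iff_gen G w).symm)
    · refine hom (L.getD · G.initial) ?_ h
      simp only [List.mem_map, Finset.mem_toList, Set.mem_setOf_eq]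
      rintro _ ⟨_, ⟨r, hr, rfl⟩, rfl⟩
      have m : ∀ x ∈ r.input :: r.output.flatMap nts, L.getD (L.idxOf x) G.initial = x := fun x h =>
        u x (List.mem_cons_of_mem _ (List.mem_flatMap.2 ⟨r, Finset.mem_toList.2 hr, h⟩))
      dsimp only
      rw [m _ List.mem_cons_self, List.map_map, List.map_map, List.map_congr_left (g := id), List.map_id]
      · exact hr
      rintro (a | x) h
      · rfl
      · exact congrArg Symbol.nonterminal (m x (List.mem_cons_of_mem _ (List.mem_flatMap.2 ⟨_, h, by simp [nts]⟩)))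
    · have := hom L.idxOf (R' := {r | ∃ q ∈ G.rules.toList.map fun r => (L.idxOf r.input, r.output.map (cs L.idxOf)),
        ⟨q.1, q.2.map Cfg.sym⟩ = r}) (fun r hr => ⟨_, List.mem_map_of_mem (Finset.mem_toList.2 hr), by simp [e]⟩) h
      simpa [ms, L] using this
  · refine (size_list_le (B := gsize G * (3 * gsize G + k + 12) + 3 * gsize G + 8) ?_).trans ?_
    · simp only [List.forall_mem_map, Finset.mem_toList, size_pair]
      intro r hr
      have := z r.input
      have a : r.output.length + 1 ≤ gsize G :=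
        Finset.single_le_sum (f := fun r : ContextFreeRule T G.NT => r.output.length + 1) (by simp) hr
      have b := size_list_le (l := r.output.map (cs L.idxOf)) (B := 3 * gsize G + k + 11) (by
        simp only [List.forall_mem_map]
        rintro (a | x) -
        · have := hk a
          have : size 0 = 2 := rfl
          simp [cs]; omega
        · have := z x
          simp [cs]; omega)
      have := Nat.mul_le_mul_right (3 * gsize G + k + 12) (Nat.le_of_succ_le a)
      rw [List.length_map, show 3 * gsize G + k + 11 + 1 = 3 * gsize G + k + 12 from rfl] at b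
      omega
    · gcongr
      simpa [gsize] using Finset.card_nsmul_le_sum G.rules (fun r => r.output.length + 1) 1 (by simp)

def fin (P : List (List T)) : Cfg T := P.map fun w => (0, w.map fun a => (some a, 0))

theorem fin_lang (P : List (List T)) (w : List T) : w ∈ (fin P).toCFG.language ↔ w ∈ P := by
  have e : ∀ w : List T, (w.map fun a => (some a, 0)).map Cfg.sym = w.map .terminal := fun w => by simp [Cfg.sym]
  rw [Cfg.lang]
  refine ⟨fun h => ?_, fun h => Gen.one ⟨_, List.mem_map_of_mem h, by rw [e]⟩ (Gen.terminals _ w)⟩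
  obtain ⟨u, v, a, b, rfl⟩ := sem_nt.1 (h.sound (I := fun _ v => v ∈ P) (by
    rintro _ ⟨_, q, rfl⟩ t a
    obtain ⟨u, b, rfl⟩ := List.mem_map.1 q
    dsimp only at a
    rw [e, ← List.append_nil (u.map _), sem_ters] at a
    obtain ⟨v, c, rfl⟩ := a
    simpa [sem_nil.1 c]))
  simpa [sem_nil.1 b]

theorem learn [Fintype T] [Nonempty T] [Enc T] : ∃ A : Sample T → Cfg T, PT A ∧
    (∀ S : Sample T, (∀ w ∈ S.1, w ∉ S.2) → Consistent S (A S).toCFG.language) ∧
    ∃ q : ℕ[X], ∀ G : ContextFreeGrammar T, ∃ C : Sample T, C.1.length + C.2.length ≤ q.eval (gsize G) ∧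
      Consistent C G.language ∧ ∀ S : Sample T, Consistent S G.language → C.1 ⊆ S.1 → C.2 ⊆ S.2 →
        (A S).toCFG.language = G.language := by
  classical
  have := Classical.inhabited_of_nonempty ‹Nonempty T›
  let : Dec T := ⟨fun t => (Finset.univ.toList.find? fun a => Enc.tr a = t).getD default, by fun_prop, fun a => by
    cases e : Finset.univ.toList.find? fun b : T => Enc.tr b = Enc.tr a with
    | none => simpa using List.find?_eq_none.1 e a
    | some b => exact Enc.inj (by simpa using List.find?_some e)⟩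
  let c := fun h (w : List T) => (dc (Cfg T) h).mem w
  have hc : PT fun p : ℕ × List T => c p.1 p.2 :=
    Cfg.pt_mem.comp (g := fun p : ℕ × List T => (dc (Cfg T) p.1, p.2)) ((pt_dc PT.fst').pair PT.snd')
  have f : ∀ h S, Fit c h S ↔ Consistent S (dc (Cfg T) h).toCFG.language := fun h S => by
    simp only [Fit, Consistent, c, ← Cfg.mem_iff, Bool.not_eq_true]
  have := pt_sel hc
  refine ⟨fun S => ((sel c S).map (dc _)).getD (fin S.1), by unfold fin; fun_prop, fun S h => ?_, ?_⟩
  · beta_reduce
    cases e : sel c S with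
    | none => exact ⟨fun w => (fin_lang _ w).2, fun w a b => h w ((fin_lang _ w).1 b) a⟩
    | some k => exact (f k S).1 (sel_fit e)
  obtain ⟨k, hk⟩ : ∃ k, ∀ a : T, size a ≤ k := ⟨_, fun a => Finset.le_sup (f := size) (Finset.mem_univ a)⟩
  refine ⟨((2 * (.X * (.X * (3 * .X + C k + 12) + 3 * .X + 9) + 2) + 3) ^ 2 + 1) ^ 2 + 1, fun G => ?_⟩
  obtain ⟨g, a, b⟩ := code hk G
  obtain ⟨h, rfl, d⟩ := dc_surj g
  obtain ⟨t, n, t1, t2⟩ := sel_spec (c := c) h
  let u := List.replicate n (default : T) :: t
  refine ⟨(u.filter (c h), u.filter (!c h ·)), ?_, a ▸ (f h _).1 (by simp +contextual [Fit]), fun S s1 s2 s3 => ?_⟩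
  · rw [← List.length_eq_length_filter_add]
    simp only [u, List.length_cons, eval_add, eval_pow, eval_mul, eval_X, eval_C, eval_ofNat, eval_one]
    exact Nat.succ_le_succ (t1.trans (Nat.pow_le_pow_left (Nat.succ_le_succ (Nat.pow_le_pow_left (by omega) 2)) 2))
  have m : ∀ x ∈ u, x ∈ S.1 ∨ x ∈ S.2 := fun x hx => by
    cases e : c h x
    exacts [.inr (s3 (by simp [hx, e])), .inl (s2 (by simp [hx, e]))]
  obtain ⟨j, e, e'⟩ := t2 S (by
    have := length_le_size (List.replicate n (default : T))
    have : size S = _ := size_pair S.1 S.2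
    rcases m _ List.mem_cons_self with h | h <;> have := size_mem h <;> simp at * <;> omega)
    ((f h S).2 (a ▸ s1)) fun x hx => m x (List.mem_cons_of_mem _ hx)
  beta_reduce
  rw [e, ← a]
  exact Set.ext fun w => (Cfg.mem_iff _ w).symm.trans ((iff_of_eq (congrArg (· = true) (congrFun e' w))).trans
    (Cfg.mem_iff _ w))

end Pool.Agent.H.MP_35a6f4_lc
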